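import Pool.Agent.J6H63.Cop.All

/-!
# The critical slope of the copolymer at a selective interface

For every tail exponent `α ∈ (0, 1)` of the renewal, every gap law and every disorder law, the
critical curve `h_c(λ)` is, for small `λ`, at least `δ λ` above the line `λ / (1 + α)` and at least
`δ λ` above every `h` at which the product criterion (renewal measures, fractional moment of order
`1 / (1 + α)`) holds. In particular `m_{1/2} > 2/3`.
-/

set_option autoImplicit false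
open MeasureTheory ProbabilityTheory Filter Topology
open scoped ENNReal NNReal

namespace Pool.Agent.Results.MP_c26281_pr.SlopeGap

/-- law of one (gap, sign) pair: gap with law `κ`, sign uniform on `{false, true}` -/
noncomputable def stepLaw (κ : PMF ℕ) : Measure (ℕ × Bool) :=
  κ.toMeasure.prod (PMF.uniformOfFintype Bool).toMeasure

instance instStepLaw (κ : PMF ℕ) : IsProbabilityMeasure (stepLaw κ) := by
  unfold stepLaw; infer_instance

/-- law of the i.i.d. sequence of (gap, sign) pairs -/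
noncomputable def pathMeasure (κ : PMF ℕ) : Measure (ℕ → ℕ × Bool) :=
  Measure.infinitePi (fun _ : ℕ => stepLaw κ)

instance instPathMeasure (κ : PMF ℕ) : IsProbabilityMeasure (pathMeasure κ) := by
  unfold pathMeasure; infer_instance

/-- renewal points `τ_0 = 0`, `τ_j` = sum of the first `j` gaps -/
def tau (x : ℕ → ℕ × Bool) (j : ℕ) : ℕ := ∑ i ∈ Finset.range j, (x i).1

/-- `Δ_n` = sign (0 or 1) of the excursion `(τ_j, τ_{j+1}]` containing `n` -/
noncomputable def Delta (x : ℕ → ℕ × Bool) (n : ℕ) : ℝ :=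
  ∑ j ∈ Finset.range n, if tau x j < n ∧ n ≤ tau x (j + 1) ∧ (x j).2 = true then 1 else 0

/-- the copolymer partition function `Z_{N,ω}` -/
noncomputable def Z (κ : PMF ℕ) (lam h : ℝ) (N : ℕ) (ω : ℕ → ℝ) : ℝ :=
  ∫ x, Real.exp (-2 * lam * ∑ n ∈ Finset.Icc 1 N, Delta x n * (ω n + h)) ∂(pathMeasure κ)

/-- i.i.d. disorder with law `ν` (the coordinates `1, 2, ...` are used) -/
noncomputable def disorder (ν : Measure ℝ) [IsProbabilityMeasure ν] : Measure (ℕ → ℝ) :=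
  Measure.infinitePi (fun _ : ℕ => ν)

instance instDisorder (ν : Measure ℝ) [IsProbabilityMeasure ν] :
    IsProbabilityMeasure (disorder ν) := by
  unfold disorder; infer_instance

/-- `N⁻¹ E log Z_N` -/
noncomputable def feN (κ : PMF ℕ) (ν : Measure ℝ) [IsProbabilityMeasure ν] (lam h : ℝ) (N : ℕ) : ℝ :=
  (N : ℝ)⁻¹ * ∫ ω, Real.log (Z κ lam h N ω) ∂(disorder ν)

/-- the free energy `f(λ,h)` -/
noncomputable def freeEnergy (κ : PMF ℕ) (ν : Measure ℝ) [IsProbabilityMeasure ν] (lam h : ℝ) : ℝ :=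
  limUnder atTop (feN κ ν lam h)

/-- `∑_m K(m) E[((1 + exp(-2λ ∑_{n ≤ m} (ω_n + h))) / 2)^{1/(1+α)}]`, an element of `[0, ∞]`: the
product criterion says that this is at least one -/
noncomputable def prodSum (κ : PMF ℕ) (ν : Measure ℝ) [IsProbabilityMeasure ν] (α lam h : ℝ) :
    ENNReal :=
  ∑' m : ℕ, ENNReal.ofReal ((κ m).toReal *
    ∫ ω, ((1 + Real.exp (-2 * lam * ∑ n ∈ Finset.Icc 1 m, (ω n + h))) / 2) ^
      (1 / (1 + α)) ∂(disorder ν))

/-- **The critical slope.** Let `κ` be a gap law on the positive integers with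
`n^{1+α} κ(n) → cK > 0`, `0 < α < 1`, and `ν` a disorder law with mean `0`, variance `1` and all
exponential moments. There are `δ, l0 > 0` such that:

* for `0 < λ < l0` the free energy `f(λ,h)` exists for `h ≥ 0` and there is `hc > 0` with
  `f(λ,h) > 0` iff `h < hc` (for `h ≥ 0`); `hc > (1/(1+α) + δ) λ`; and `hc > h + δ λ` for every
  `h ∈ [0, 3λ/2]` which satisfies the product criterion;
* if `hc(λ)/λ → m` as `λ ↘ 0` then `m ≥ 1/(1+α) + δ`, and `m ≥ ρ + δ` for every `ρ ∈ [0, 3/2]` such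
  that `h = ρ λ` satisfies the product criterion for arbitrarily small `λ > 0`. -/
theorem result (κ : PMF ℕ) (hκ0 : κ 0 = 0) (α cK : ℝ) (hα : 0 < α) (hα1 : α < 1) (hcK : 0 < cK)
    (htail : Tendsto (fun n : ℕ => (n : ℝ) ^ (1 + α) * (κ n).toReal) atTop (𝓝 cK))
    (ν : Measure ℝ) [IsProbabilityMeasure ν]
    (hmean : ∫ x, x ∂ν = 0) (hvar : ∫ x, x ^ 2 ∂ν = 1)
    (hexp : ∀ t : ℝ, Integrable (fun x => Real.exp (t * x)) ν) :
    ∃ δ l0 : ℝ, 0 < δ ∧ 0 < l0 ∧
    (∀ lam : ℝ, 0 < lam → lam < l0 → ∃ hc : ℝ, 0 < hc ∧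
      (∀ h, 0 ≤ h → Tendsto (feN κ ν lam h) atTop (𝓝 (freeEnergy κ ν lam h))) ∧
      (∀ h, 0 ≤ h → (0 < freeEnergy κ ν lam h ↔ h < hc)) ∧
      (1 / (1 + α) + δ) * lam < hc ∧
      ∀ h, 0 ≤ h → h ≤ 3 / 2 * lam → 1 ≤ prodSum κ ν α lam h → h + δ * lam < hc) ∧
    ∀ (hc : ℝ → ℝ) (m : ℝ),
      (∀ lam, 0 < lam → ∀ h, 0 ≤ h → (0 < freeEnergy κ ν lam h ↔ h < hc lam)) →
      Tendsto (fun lam => hc lam / lam) (𝓝[>] 0) (𝓝 m) →
      1 / (1 + α) + δ ≤ m ∧
      ∀ ρ : ℝ, 0 ≤ ρ → ρ ≤ 3 / 2 → (∃ᶠ lam in 𝓝[>] (0 : ℝ), 1 ≤ prodSum κ ν α lam (ρ * lam)) →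
        ρ + δ ≤ m :=
  Pool.Agent.J6H63.Cop.top Pool.Agent.J6H63.Cop.finET
    ⟨κ, hκ0, α, cK, hα, hα1, hcK, htail, ν, inferInstance, hmean, hvar, hexp⟩

end Pool.Agent.Results.MP_c26281_pr.SlopeGap
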